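import Pool.Agent.MP70c477.Assemble
import Pool.Agent.MP70c477.PolyCase

/-!
# MP_70c477_an, Q2: every optimal set is a polygon

An optimal set is a nonempty bounded open convex `Ω ⊆ ℝ²` attaining the infimum `cstar` of
`λ₁(Ω) / h(Ω)²` over this class.  We show that such an `Ω` is a polygon.

Sketch.  Let `h = h(Ω)`, `r = 1 / h` and let `K` be the inner parallel set at distance `r`.
By the theorem of Kawohl and Lachand-Robert (proved here from scratch, for the definition of `h`
by test functions) `|K| = π r²`.  Near a boundary point of `K` the lower boundary of `Ω` is a
convex graph.  If the contact points of the discs of radius `r` centred on `∂K` accumulate, a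
symmetric pair of convex perturbations (`g ± tφ`, `φ` a combination of two bumps that keeps
convexity) gains in `|K|` more, in second order, than what the second difference of `λ₁` can
lose; this contradicts optimality.  So `K` is locally the intersection of two half-planes whose
translates support `Ω`; by compactness `K` is a polygon, and `Ω` is the intersection of the
translated half-planes by strict monotonicity of `λ₁`.
-/

namespace Pool.Agent.Results.MP_70c477_an.OptimalPolygon

open Pool.MP70c477

/-- **Every optimal set is a polygon** (Q2 of `MP_70c477_an`, answer yes). If `Ω` is a nonempty
bounded open convex subset of the plane whose quotient `λ₁(Ω) / h(Ω)²` equals the infimum of this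
quotient over all such sets, then `Ω` is the interior of the convex hull of finitely many
points. -/
theorem result (Ω : Set Pl) (hΩ : IsOptimal Ω) : IsPolygon Ω := by
  have hopt : Opt Ω := opt_of_isOptimal hΩ
  refine polygon_of_local hΩ.1 hopt
    (fun Ω' h' hsub hne => Pool.Agent.MP70c477.lam_strict hΩ.1 h' hsub hne) ?_
  intro p hp
  exact loc_of_opt hΩ.1 hopt hp

end Pool.Agent.Results.MP_70c477_an.OptimalPolygon
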